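import Pool.Agent.Helper785_SIEnt.Defs

/-!
# Shifts of finite type with a causal kernel of finite memory
-/

set_option autoImplicit false

namespace Pool.Agent.Helper785.Causal

open Pool.Agent.Helper785.SIEnt

/-- The cube `{0, …, k-1}^d`, as a finite set. -/
noncomputable def cubeF (d k : ℕ) : Finset (Fin d → ℤ) := Fintype.piFinset (fun _ => Finset.Ico (0 : ℤ) k)

/-- The configurations `x` such that at every place `v` the symbol `x v` has positive probability
`p u (x v)`, given the symbols `u = (x (v - f))` for `f ∈ F`. -/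
def kernelShift {d : ℕ} {A : Type} (F : Finset (Fin d → ℤ)) (p : (F → A) → A → ℝ) :
    Set ((Fin d → ℤ) → A) :=
  {x | ∀ v, 0 < p (fun f => x (v - f)) (x v)}

/-- `p` is a causal kernel with memory `F`: the finite set `F` lies in an open half space, and for
every `u : F → A` the numbers `p u c`, `c : A`, are probabilities. -/
structure IsCausal {d : ℕ} {A : Type} [Fintype A] (F : Finset (Fin d → ℤ))
    (p : (F → A) → A → ℝ) : Prop where
  halfspace : ∃ ell : (Fin d → ℤ) →+ ℤ, ∀ f ∈ F, 0 < ell f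
  nonneg : ∀ u c, 0 ≤ p u c
  sum_one : ∀ u, ∑ c, p u c = 1

/-- The product of the probabilities of the symbols of a configuration in a cube of side `k` is
`exp (-h k^d + O (k^(d-1)))`, uniformly. -/
def UniformGibbs {d : ℕ} {A : Type} (F : Finset (Fin d → ℤ)) (p : (F → A) → A → ℝ) (h : ℝ) :
    Prop :=
  ∃ C : ℝ, ∀ x ∈ kernelShift F p, ∀ k : ℕ,
    |∑ v ∈ cubeF d k, Real.log (p (fun f => x (v - f)) (x v)) + h * (k : ℝ) ^ d| ≤
      C * (k : ℝ) ^ (d - 1)

theorem mem_cubeF {d k : ℕ} (v : Fin d → ℤ) : v ∈ cubeF d k ↔ ∀ i, 0 ≤ v i ∧ v i < (k : ℤ) := by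
  simp [cubeF, Fintype.mem_piFinset]

theorem card_cubeF (d k : ℕ) : (cubeF d k).card = k ^ d := by
  simp [cubeF, Fintype.card_piFinset]

end Pool.Agent.Helper785.Causal
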