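import Pool.Agent.Helper785_Causal.Realize

/-!
# The entropies of strongly irreducible shifts of finite type with a uniform causal kernel
-/

set_option autoImplicit false

namespace Pool.Agent.Helper785.Causal

open Pool.Agent.Helper785.SIEnt Finset

theorem log_mem_causal_two {J : Type} [Fintype J] [DecidableEq J] [Nonempty J]
    (B : Matrix J J ℕ) (hB : ∀ i j, 3 ≤ B i j)
    (v : J → ℝ) (hv : ∀ j, 0 < v j) (p : ℕ) (hp : 0 < p) (κ : ℝ) (hκ : 0 < κ)
    (hBv : ∀ i, ∑ j, (B i j : ℝ) * v j = κ ^ p * v i) : Real.log κ ∈ causalEntropySet 2 := by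
  classical
  have hB' : ∀ e, 0 < e → ∀ i j, 3 ≤ (B ^ e) i j := by
    intro e he
    induction e with
    | zero => omega
    | succ e ih =>
      intro i j
      rcases Nat.eq_zero_or_pos e with h | h
      · subst h
        simpa using hB i j
      · rw [pow_succ, Matrix.mul_apply]
        have h1 := ih h i (Classical.arbitrary J)
        have h2 := hB (Classical.arbitrary J) j
        calc 3 ≤ (B ^ e) i (Classical.arbitrary J) * B (Classical.arbitrary J) j := by nlinarith
          _ ≤ ∑ k, (B ^ e) i k * B k j :=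
            Finset.single_le_sum (f := fun k => (B ^ e) i k * B k j) (fun _ _ => Nat.zero_le _)
              (Finset.mem_univ _)
  set K : ℕ := ∑ e ∈ Finset.range (3 * p + 4), ∑ i, ∑ j, (B ^ e) i j with hKdef
  have hK : ∀ e ≤ 3 * p + 3, ∀ i j, (B ^ e) i j ≤ K := by
    intro e he i j
    calc (B ^ e) i j ≤ ∑ j, (B ^ e) i j :=
          Finset.single_le_sum (f := fun j => (B ^ e) i j) (fun _ _ => Nat.zero_le _)
            (Finset.mem_univ j)
      _ ≤ ∑ i, ∑ j, (B ^ e) i j :=
          Finset.single_le_sum (f := fun i => ∑ j, (B ^ e) i j) (fun _ _ => Nat.zero_le _)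
            (Finset.mem_univ i)
      _ ≤ K := Finset.single_le_sum (f := fun e => ∑ i, ∑ j, (B ^ e) i j)
            (fun _ _ => Nat.zero_le _) (Finset.mem_range.2 (by omega))
  have hfin : Finite {a : Sym J // Valid p K a} := finite_valid p K
  have := Fintype.ofFinite {a : Sym J // Valid p K a}
  obtain ⟨L, hL⟩ := exists_sft_eq_cornerSet (sysRule B p K)
  have hne : (cornerSet (sysRule B p K)).Nonempty := by
    obtain ⟨z, hz⟩ := point_nonempty (K := K) hp hB' hK
    exact ⟨ofPoint hz, ofPoint_mem hz⟩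
  have hbal := rule_balanced B p K hp v κ hBv hK
  have hα : ∀ a : {a : Sym J // Valid p K a}, 0 < wt v κ a.1 :=
    fun a => by unfold wt; have := hv a.1.i; positivity
  have hβ : ∀ a : {a : Sym J // Valid p K a}, 0 < wb κ a.1 :=
    fun a => by unfold wb; positivity
  obtain ⟨h1, h2, h3⟩ := corner_kernel hbal hκ hα hβ
  refine ⟨{a : Sym J // Valid p K a}, inferInstance, L, cornerF, _, ?_, ?_, ?_, ?_, h2, h3⟩
  · rw [hL]; exact hne
  · rw [hL]; exact sys_si hp hB' hK
  · rw [hL]; exact hasEntropy_of_balanced hbal hκ hα hβ hne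
  · rw [hL]; exact h1

theorem zero_mem_causal (d : ℕ) : (0 : ℝ) ∈ causalEntropySet d := by
  refine ⟨Unit, inferInstance, [], ∅, fun _ _ => 1, ⟨fun _ => (), ?_⟩, ⟨1, le_rfl, ?_⟩, ?_, ?_,
    ⟨⟨0, ?_⟩, ?_, ?_⟩, ⟨0, ?_⟩⟩
  · intro P hP; simp at hP
  · intro F G _ x hx y _
    exact ⟨x, hx, fun _ _ => rfl, fun _ _ => rfl⟩
  · unfold HasEntropy
    have : ∀ k, patternCount (sft ([] : List (Pattern d Unit))) k ≤ 1 := by
      intro k
      unfold patternCount
      exact Set.ncard_le_one_of_subsingleton _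
    have h0 : ∀ k, Real.log (patternCount (sft ([] : List (Pattern d Unit))) k : ℝ) /
        (k : ℝ) ^ d = 0 := by
      intro k
      have h1 := this k
      have h2 : patternCount (sft ([] : List (Pattern d Unit))) k = 0 ∨
          patternCount (sft ([] : List (Pattern d Unit))) k = 1 := by omega
      rcases h2 with h2 | h2 <;> simp [h2]
    simp only [h0]
    exact tendsto_const_nhds
  · ext x
    constructor
    · intro _ v
      exact one_pos
    · intro _ P hP
      simp at hP
  · intro f hf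
    simp at hf
  · intro _ _
    exact zero_le_one
  · intro _
    simp
  · intro x _ k
    simp

theorem subset_causal_two :
    {h : ℝ | ∃ (q : ℚ) (l : ℝ), 0 ≤ q ∧ IsPerron l ∧ h = (q : ℝ) * Real.log l} ⊆
      causalEntropySet 2 := by
  classical
  rintro h ⟨q, l, hq, ⟨h1, h2, h3⟩, rfl⟩
  rcases h1.eq_or_lt with h | h
  · rw [← h, Real.log_one, mul_zero]
    exact zero_mem_causal 2
  rcases hq.eq_or_lt with hq0 | hq0
  · rw [← hq0]
    simp only [Rat.cast_zero, zero_mul]
    exact zero_mem_causal 2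
  obtain ⟨J, hJ1, hJ2, A, ν, hν, hA⟩ := Pool.Agent.Helper948.Ent.A2.lind l h1 h2 h3
  let M : Matrix J J ℕ := fun i j => A j i
  have hM : ∀ i, ∑ j, (M i j : ℝ) * ν j = l * ν i := by
    intro i
    rw [← hA i]
    exact Finset.sum_congr rfl (fun j _ => mul_comm _ _)
  have hnum : 0 < q.num := Rat.num_pos.2 hq0
  obtain ⟨a, ha⟩ : ∃ a : ℕ, (a : ℤ) = q.num := ⟨q.num.toNat, Int.toNat_of_nonneg hnum.le⟩
  have ha0 : 0 < a := by omega
  have hMa := pow_mulVec M ν l hM a
  obtain ⟨C, hC1, hC2, hC3, B, v, N, hN, hB, hv, hBv⟩ :=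
    exists_large (M ^ a) ν hν (l ^ a) (one_lt_pow₀ h ha0.ne') hMa
  have hl0 : 0 < l := by linarith
  have hkey : Real.log (l ^ (q : ℝ)) ∈ causalEntropySet 2 := by
    refine log_mem_causal_two B hB v hv (q.den * N) (Nat.mul_pos q.den_pos hN) _
      (Real.rpow_pos_of_pos hl0 _) ?_
    intro i
    rw [hBv i]
    congr 1
    rw [← Real.rpow_natCast (l ^ (q : ℝ)), ← Real.rpow_mul hl0.le, ← pow_mul,
      ← Real.rpow_natCast l]
    congr 1
    have hqd : (q : ℝ) * q.den = a := by
      have h4 : q * q.den = q.num := Rat.mul_den_eq_num q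
      have h5 : ((q * q.den : ℚ) : ℝ) = ((q.num : ℚ) : ℝ) := by rw [h4]
      push_cast at h5
      rw [h5, ← ha]
      push_cast; rfl
    push_cast
    rw [← mul_assoc, hqd]
  rwa [Real.log_rpow hl0] at hkey

/-- **Main theorem.** -/
theorem causalEntropySet_eq {d : ℕ} (hd : 2 ≤ d) : causalEntropySet d =
    {h : ℝ | ∃ (q : ℚ) (l : ℝ), 0 ≤ q ∧ IsPerron l ∧ h = (q : ℝ) * Real.log l} := by
  apply Set.Subset.antisymm
  · rintro h ⟨A, hA, L, F, p, hne, hsi, hent, hL, hp, hG⟩
    have : Nonempty A := by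
      obtain ⟨x, _⟩ := hne
      exact ⟨x 0⟩
    exact rat_mul_log_of_kernel (by omega) hp hG
  · exact subset_causal_two.trans (causalEntropySet_mono (by norm_num) hd)

end Pool.Agent.Helper785.Causal
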