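import Pool.Agent.Helper785_Causal.Perron
import Pool.Agent.Helper785_SIEnt.PerronMat

/-!
# Stochastic matrices whose cycles have weights `exp (-h n)`
-/

set_option autoImplicit false

namespace Pool.Agent.Helper785.Causal

open Pool.Agent.Helper785.SIEnt Finset

/-- `Path W s t n w`: there is a walk of length `n` from `s` to `t` along pairs of positive weight,
with product `w` of the weights. -/
inductive Path {S : Type} (W : S → S → ℝ) : S → S → ℕ → ℝ → Prop
  | nil (s : S) : Path W s s 0 1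
  | cons {s t u : S} {n : ℕ} {w : ℝ} (h : 0 < W s t) (p : Path W t u n w) :
      Path W s u (n + 1) (W s t * w)

namespace Path

variable {S : Type} {W : S → S → ℝ}

theorem pos {s t : S} {n : ℕ} {w : ℝ} (p : Path W s t n w) : 0 < w := by
  induction p with
  | nil => norm_num
  | cons h _ ih => exact mul_pos h ih

theorem trans {s t u : S} {n m : ℕ} {w w' : ℝ} (p : Path W s t n w) (q : Path W t u m w') :
    Path W s u (n + m) (w * w') := by
  induction p with
  | nil => simpa using q
  | cons h _ ih =>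
    have := Path.cons h (ih q)
    rw [← mul_assoc] at this
    rwa [Nat.add_right_comm] at this

theorem single {s t : S} (h : 0 < W s t) : Path W s t 1 (W s t) := by
  have := Path.cons h (Path.nil t)
  rwa [mul_one, zero_add] at this

/-- The states along a path. -/
theorem exists_seq {s t : S} {n : ℕ} {w : ℝ} (p : Path W s t n w) :
    ∃ γ : ℕ → S, γ 0 = s ∧ γ n = t ∧ (∀ i < n, 0 < W (γ i) (γ (i + 1))) ∧
      w = ∏ i ∈ Finset.range n, W (γ i) (γ (i + 1)) := by
  induction p with
  | nil s => exact ⟨fun _ => s, rfl, rfl, fun i hi => absurd hi (Nat.not_lt_zero i), by simp⟩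
  | @cons s t u n w h _ ih =>
    obtain ⟨γ, h0, h1, h2, h3⟩ := ih
    refine ⟨fun i => match i with | 0 => s | i + 1 => γ i, rfl, h1, ?_, ?_⟩
    · intro i hi
      rcases i with _ | i
      · show 0 < W s (γ 0)
        rw [h0]; exact h
      · exact h2 i (by omega)
    · rw [Finset.prod_range_succ']
      show W s t * w = (∏ i ∈ Finset.range n, W (γ i) (γ (i + 1))) * W s (γ 0)
      rw [h0, ← h3, mul_comm]

end Path

/-- If all cycles of a stochastic matrix have weight `exp (-h n)`, then `h` is a nonnegative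
rational multiple of the logarithm of a Perron number. -/
theorem rat_mul_log_of_cycles {S : Type} [Finite S] [Nonempty S] (W : S → S → ℝ)
    (h0 : ∀ s t, 0 ≤ W s t) (h1 : ∀ s, ∑ᶠ t, W s t = 1) (h : ℝ)
    (hcyc : ∀ s n w, Path W s s n w → w = Real.exp (-(h * n))) :
    ∃ (q : ℚ) (l : ℝ), 0 ≤ q ∧ IsPerron l ∧ h = (q : ℝ) * Real.log l := by
  classical
  have := Fintype.ofFinite S
  simp only [finsum_eq_sum_of_fintype] at h1
  -- successors
  have hsucc : ∀ s, ∃ t, 0 < W s t := by
    intro s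
    by_contra hcon
    push Not at hcon
    have : ∑ t, W s t = 0 := Finset.sum_eq_zero (fun t _ => le_antisymm (hcon t) (h0 s t))
    rw [h1 s] at this
    exact one_ne_zero this
  -- reachable sets
  let R : S → Finset S := fun s => Finset.univ.filter (fun t => ∃ n w, Path W s t n w)
  have hR : ∀ s t, t ∈ R s ↔ ∃ n w, Path W s t n w := fun s t => by simp [R]
  have hself : ∀ s, s ∈ R s := fun s => (hR s s).2 ⟨0, 1, Path.nil s⟩
  have hRsub : ∀ s t, t ∈ R s → R t ⊆ R s := by
    intro s t ht u hu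
    rw [hR] at *
    obtain ⟨n, w, p⟩ := ht
    obtain ⟨m, w', q⟩ := hu
    exact ⟨_, _, p.trans q⟩
  obtain ⟨s₀, -, hmin⟩ := Finset.exists_min_image (Finset.univ : Finset S)
    (fun s => (R s).card) Finset.univ_nonempty
  have hback : ∀ t ∈ R s₀, s₀ ∈ R t := by
    intro t ht
    have : R t = R s₀ := Finset.eq_of_subset_of_card_le (hRsub s₀ t ht) (hmin t (Finset.mem_univ _))
    rw [this]; exact hself s₀
  -- the potential
  have hpot : ∀ t ∈ R s₀, ∃ φ : ℝ, 0 < φ ∧ ∀ n w, Path W s₀ t n w → Real.exp (h * n) * w = φ := by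
    intro t ht
    obtain ⟨n, w, p⟩ := (hR _ _).1 ht
    refine ⟨Real.exp (h * n) * w, mul_pos (Real.exp_pos _) p.pos, ?_⟩
    intro n' w' p'
    obtain ⟨m, u, r⟩ := (hR _ _).1 (hback t ht)
    have e1 := hcyc _ _ _ (p.trans r)
    have e2 := hcyc _ _ _ (p'.trans r)
    have hu := r.pos
    have e3 : Real.exp (h * n) * w * u = Real.exp (-(h * m)) := by
      rw [mul_assoc, e1, ← Real.exp_add]
      congr 1
      push_cast; ring
    have e4 : Real.exp (h * n') * w' * u = Real.exp (-(h * m)) := by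
      rw [mul_assoc, e2, ← Real.exp_add]
      congr 1
      push_cast; ring
    exact mul_right_cancel₀ hu.ne' (e4.trans e3.symm)
  let J : Type := {t : S // t ∈ R s₀}
  choose Φ hΦpos hΦ using fun t : J => hpot t.1 t.2
  have hJ : Nonempty J := ⟨⟨s₀, hself s₀⟩⟩
  let M : Matrix J J ℕ := fun s t => if 0 < W s.1 t.1 then 1 else 0
  have hedge : ∀ s t : J, 0 < W s.1 t.1 → Φ t = Real.exp h * Φ s * W s.1 t.1 := by
    intro s t hst
    obtain ⟨n, w, p⟩ := (hR _ _).1 s.2
    have e1 := hΦ s n w p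
    have e2 := hΦ t _ _ (p.trans (Path.single hst))
    rw [← e1, ← e2]
    have : Real.exp (h * ((n + 1 : ℕ) : ℝ)) = Real.exp h * Real.exp (h * n) := by
      rw [← Real.exp_add]; congr 1; push_cast; ring
    rw [this]
    ring
  have hM : ∀ i : J, ∑ j, (M i j : ℝ) * Φ j = Real.exp h * Φ i := by
    intro i
    have e1 : ∀ j : J, (M i j : ℝ) * Φ j = Real.exp h * Φ i * W i.1 j.1 := by
      intro j
      by_cases hij : 0 < W i.1 j.1
      · simp only [M, if_pos hij, Nat.cast_one, one_mul]
        exact hedge i j hij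
      · simp only [M, if_neg hij, Nat.cast_zero, zero_mul]
        have : W i.1 j.1 = 0 := le_antisymm (not_lt.1 hij) (h0 _ _)
        rw [this, mul_zero]
    rw [Finset.sum_congr rfl (fun j _ => e1 j), ← Finset.mul_sum]
    have e2 : ∑ j : J, W i.1 j.1 = 1 := by
      rw [← h1 i.1]
      have e3 : ∑ j : J, W i.1 j.1 = ∑ j ∈ R s₀, W i.1 j := by
        rw [← Finset.sum_coe_sort (R s₀)]
      rw [e3]
      refine Finset.sum_subset (Finset.subset_univ _) (fun t _ ht => ?_)
      by_contra hcon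
      have h2 : 0 < W i.1 t := lt_of_le_of_ne (h0 _ _) (Ne.symm hcon)
      exact ht (hRsub s₀ i.1 i.2 ((hR _ _).2 ⟨1, _, Path.single h2⟩))
    rw [e2, mul_one]
  -- the eigenvalue is at least `1`
  have hge : 1 ≤ Real.exp h := by
    obtain ⟨i, -, hi⟩ := Finset.exists_min_image (Finset.univ : Finset J) Φ Finset.univ_nonempty
    obtain ⟨t, ht⟩ := hsucc i.1
    have htJ : t ∈ R s₀ := hRsub s₀ i.1 i.2 ((hR _ _).2 ⟨1, _, Path.single ht⟩)
    have e1 : Φ ⟨t, htJ⟩ ≤ ∑ j, (M i j : ℝ) * Φ j := by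
      have e2 : (M i ⟨t, htJ⟩ : ℝ) * Φ ⟨t, htJ⟩ = Φ ⟨t, htJ⟩ := by
        simp only [M, if_pos ht, Nat.cast_one, one_mul]
      rw [← e2]
      exact Finset.single_le_sum (f := fun j => (M i j : ℝ) * Φ j)
        (fun j _ => mul_nonneg (Nat.cast_nonneg _) (hΦpos j).le) (Finset.mem_univ _)
    rw [hM i] at e1
    have e3 := hi ⟨t, htJ⟩ (Finset.mem_univ _)
    by_contra hcon
    push Not at hcon
    nlinarith [hΦpos i]
  have hh : 0 ≤ h := by
    rw [← Real.exp_zero] at hge
    exact Real.exp_le_exp.1 hge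
  rcases hh.eq_or_lt with hz | hpos
  · refine ⟨0, 1, le_rfl, ⟨le_rfl, isIntegral_one, ?_⟩, by simp [← hz]⟩
    intro z hzz hne
    exfalso
    apply hne
    have e1 : minpoly ℤ (1 : ℝ) ∣ Polynomial.X - Polynomial.C 1 :=
      minpoly.isIntegrallyClosed_dvd isIntegral_one (by simp)
    obtain ⟨q, hq⟩ := e1
    have e2 : Polynomial.aeval z (Polynomial.X - Polynomial.C (1 : ℤ)) = 0 := by
      rw [hq, map_mul, hzz, zero_mul]
    simp only [map_sub, Polynomial.aeval_X, eq_intCast,
      Int.cast_one, sub_eq_zero] at e2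
    rw [e2]; simp
  · obtain ⟨C, hC1, hC2, hC3, B, v, N, hN, hB, hv, hBv⟩ := exists_large M Φ hΦpos (Real.exp h)
      (Real.one_lt_exp_iff.2 hpos) hM
    have hP := isPerron_of_pos B (fun i j => lt_of_lt_of_le (by norm_num) (hB i j)) v hv _ hBv
    refine ⟨1 / N, Real.exp h ^ N, by positivity, hP, ?_⟩
    rw [Real.log_pow, Real.log_exp]
    have : (N : ℝ) ≠ 0 := by exact_mod_cast hN.ne'
    push_cast
    field_simp

end Pool.Agent.Helper785.Causal
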