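import Pool.Agent.Helper785_Causal.Defs
import Pool.Agent.Helper785_Causal.Walk

/-!
# The entropy of a shift with a uniform causal kernel
-/

set_option autoImplicit false

namespace Pool.Agent.Helper785.Causal

open Pool.Agent.Helper785.SIEnt Finset

theorem sum_periodic {n : ℕ} (f : ℤ → ℝ) (hf : ∀ t, f (t + n) = f t) (a : ℤ) :
    ∑ i ∈ Finset.range n, f (a + i) = ∑ i ∈ Finset.range n, f i := by
  have step : ∀ a : ℤ, ∑ i ∈ Finset.range n, f (a + 1 + i) = ∑ i ∈ Finset.range n, f (a + i) := by
    intro a
    have h1 := Finset.sum_range_succ (fun i : ℕ => f (a + i)) n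
    have h2 := Finset.sum_range_succ' (fun i : ℕ => f (a + i)) n
    rw [h1] at h2
    have h3 : f (a + (n : ℤ)) = f (a + ((0 : ℕ) : ℤ)) := by
      rw [hf]; simp
    rw [h3] at h2
    have h4 := add_right_cancel h2
    rw [h4]
    refine Finset.sum_congr rfl (fun i _ => ?_)
    congr 1
    push_cast; ring
  induction a using Int.induction_on with
  | zero => simp
  | succ i ih => rw [step, ih]
  | pred i ih =>
    have := step (-(i : ℤ) - 1)
    rw [sub_add_cancel] at this
    rw [← this, ih]

/-- **The entropy constant of a uniform causal kernel.** -/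
theorem rat_mul_log_of_kernel {d : ℕ} (hd : 0 < d) {A : Type} [Fintype A] [Nonempty A]
    {F : Finset (Fin d → ℤ)} {p : (F → A) → A → ℝ} (hp : IsCausal F p) {h : ℝ}
    (hG : UniformGibbs F p h) :
    ∃ (q : ℚ) (l : ℝ), 0 ≤ q ∧ IsPerron l ∧ h = (q : ℝ) * Real.log l := by
  classical
  obtain ⟨ell, hell⟩ := hp.halfspace
  obtain ⟨C, hC⟩ := hG
  obtain ⟨N, hN⟩ : ∃ N : ℕ, ∀ f ∈ F, ell f ≤ N + 1 := by
    refine ⟨∑ f ∈ F, (ell f).toNat, fun f hf => ?_⟩
    have h1 : (ell f).toNat ≤ ∑ f ∈ F, (ell f).toNat :=
      Finset.single_le_sum (f := fun f => (ell f).toNat) (fun _ _ => Nat.zero_le _) hf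
    have h2 := Int.self_le_toNat (ell f)
    omega
  -- states
  let ix : F → Fin (N + 1) := fun f => ⟨(ell f.1 - 1).toNat, by
    have h1 := hN f.1 f.2
    have h2 := hell f.1 f.2
    omega⟩
  have hix : ∀ f : F, ((ix f : ℕ) : ℤ) = ell f.1 - 1 := by
    intro f
    have h2 := hell f.1 f.2
    show (((ell f.1 - 1).toNat : ℕ) : ℤ) = _
    rw [Int.toNat_of_nonneg (by omega)]
  let W : (Fin (N + 1) → A) → (Fin (N + 1) → A) → ℝ := fun s t =>
    if (∀ i : Fin N, t i.succ = s i.castSucc) then p (fun f => s (ix f)) (t 0) else 0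
  refine rat_mul_log_of_cycles W ?_ ?_ h ?_
  · intro s t
    simp only [W]
    split_ifs
    · exact hp.nonneg _ _
    · exact le_rfl
  · intro s
    rw [finsum_eq_sum_of_fintype, ← hp.sum_one (fun f => s (ix f))]
    rw [← Fintype.sum_equiv (Fin.consEquiv (fun _ : Fin (N + 1) => A))
      (fun x : A × (Fin N → A) => W s (Fin.cons x.1 x.2)) (fun t => W s t) (fun x => rfl)]
    rw [Fintype.sum_prod_type]
    refine Finset.sum_congr rfl (fun c _ => ?_)
    rw [Finset.sum_eq_single (fun i => s i.castSucc)]
    · simp only [W]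
      rw [if_pos (fun i => by rw [Fin.cons_succ]), Fin.cons_zero]
    · intro r _ hr
      simp only [W]
      rw [if_neg]
      intro hcon
      apply hr
      funext i
      have := hcon i
      rwa [Fin.cons_succ] at this
    · intro hcon
      exact absurd (Finset.mem_univ _) hcon
  · intro s n w hpath
    rcases Nat.eq_zero_or_pos n with hn | hn
    · subst hn
      cases hpath
      simp
    obtain ⟨γ, hγ0, hγn, hγpos, hw⟩ := hpath.exists_seq
    have hwpos := hpath.pos
    have hn' : (0 : ℤ) < n := by exact_mod_cast hn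
    let σ : ℤ → (Fin (N + 1) → A) := fun t => γ (t % n).toNat
    have hσ : ∀ t : ℤ, ∃ i < n, σ t = γ i ∧ σ (t + 1) = γ (i + 1) ∧ (t % n).toNat = i := by
      intro t
      have h1 := Int.emod_nonneg t hn'.ne'
      have h2 := Int.emod_lt_of_pos t hn'
      refine ⟨(t % n).toNat, by omega, rfl, ?_, rfl⟩
      show γ ((t + 1) % n).toNat = _
      rcases lt_or_eq_of_le (show t % n + 1 ≤ n by omega) with h3 | h3
      · have h4 : (t + 1) % n = t % n + 1 := by
          rw [Int.add_emod, Int.emod_eq_of_lt (a := (t % n + 1 % n))]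
          · have : (1 : ℤ) % n = 1 := Int.emod_eq_of_lt (by norm_num) (by omega)
            rw [this]
          · have := Int.emod_nonneg 1 hn'.ne'
            omega
          · have : (1 : ℤ) % n = 1 := Int.emod_eq_of_lt (by norm_num) (by omega)
            rw [this]; omega
        rw [h4]
        congr 1
        omega
      · have h4 : (t + 1) % n = 0 := by
          have : t + 1 = n * (t / n + 1) := by
            have := Int.mul_ediv_add_emod t n
            linarith
          rw [this]
          exact Int.mul_emod_right _ _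
        rw [h4]
        have h5 : (t % n).toNat + 1 = n := by omega
        rw [h5, hγn, Int.toNat_zero, hγ0]
    let g : ℤ → ℝ := fun t => W (σ t) (σ (t + 1))
    have hgpos : ∀ t, 0 < g t := by
      intro t
      obtain ⟨i, hi, h1, h2, _⟩ := hσ t
      show 0 < W (σ t) (σ (t + 1))
      rw [h1, h2]
      exact hγpos i hi
    have hshift : ∀ t, ∀ i : Fin N, σ (t + 1) i.succ = σ t i.castSucc := by
      intro t
      by_contra hcon
      have h1 := hgpos t
      simp only [g, W] at h1
      rw [if_neg hcon] at h1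
      exact lt_irrefl _ h1
    have hg : ∀ t, g t = p (fun f => σ t (ix f)) (σ (t + 1) 0) := by
      intro t
      simp only [g, W]
      rw [if_pos (hshift t)]
    let y : ℤ → A := fun t => σ (t + 1) 0
    have hy : ∀ (k : ℕ) (hk : k < N + 1) (t : ℤ), σ t ⟨k, hk⟩ = y (t - 1 - k) := by
      intro k
      induction k with
      | zero =>
        intro hk t
        show σ t 0 = σ (t - 1 - ((0 : ℕ) : ℤ) + 1) 0
        congr 2
        push_cast; ring
      | succ k ih =>
        intro hk t
        have h1 := hshift (t - 1) ⟨k, by omega⟩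
        rw [sub_add_cancel] at h1
        have h2 := ih (by omega) (t - 1)
        have h3 : (Fin.succ ⟨k, by omega⟩ : Fin (N + 1)) = ⟨k + 1, hk⟩ := rfl
        have h4 : (Fin.castSucc ⟨k, by omega⟩ : Fin (N + 1)) = ⟨k, by omega⟩ := rfl
        rw [h3, h4] at h1
        rw [h1, h2]
        congr 1
        push_cast; ring
    -- the lifted configurations
    let x : ℤ → (Fin d → ℤ) → A := fun t₀ v => y (ell v + t₀)
    have hx : ∀ (t₀ : ℤ) (v : Fin d → ℤ),
        p (fun f : F => x t₀ (v - f)) (x t₀ v) = g (ell v + t₀) := by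
      intro t₀ v
      rw [hg]
      congr 1
      funext f
      show y (ell (v - f.1) + t₀) = σ (ell v + t₀) (ix f)
      have h1 := hy (ix f) (ix f).2 (ell v + t₀)
      rw [hix] at h1
      rw [show (⟨(ix f : ℕ), (ix f).2⟩ : Fin (N + 1)) = ix f from rfl] at h1
      rw [h1, map_sub]
      congr 1
      ring
    have hxmem : ∀ t₀, x t₀ ∈ kernelShift F p := by
      intro t₀ v
      rw [hx]
      exact hgpos _
    -- periodicity
    have hgper : ∀ t, Real.log (g (t + n)) = Real.log (g t) := by
      intro t
      have h1 : ∀ t : ℤ, σ (t + n) = σ t := by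
        intro t
        show γ ((t + n) % n).toNat = γ (t % n).toNat
        rw [Int.add_emod_right]
      simp only [g]
      rw [h1, show t + (n : ℤ) + 1 = t + 1 + n by ring, h1]
    have hG : ∀ a : ℤ, ∑ i ∈ Finset.range n, Real.log (g (a + i)) = Real.log w := by
      intro a
      rw [sum_periodic (fun t => Real.log (g t)) hgper a, hw, Real.log_prod]
      · refine Finset.sum_congr rfl (fun i hi => ?_)
        rw [Finset.mem_range] at hi
        obtain ⟨j, hj, h1, h2, h3⟩ := hσ (i : ℤ)
        have h4 : ((i : ℤ) % n).toNat = i := by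
          rw [Int.emod_eq_of_lt (by omega) (by omega)]
          simp
        rw [h4] at h3
        subst h3
        simp only [g]
        rw [h1, h2]
      · intro i hi
        rw [Finset.mem_range] at hi
        exact (hγpos i hi).ne'
    -- comparison
    have hcmp : ∀ k : ℕ, |(k : ℝ) ^ d * Real.log w + n * h * (k : ℝ) ^ d| ≤
        n * (C * (k : ℝ) ^ (d - 1)) := by
      intro k
      have h1 : ∑ i ∈ Finset.range n, (∑ v ∈ cubeF d k,
          Real.log (p (fun f : F => x (i : ℤ) (v - f)) (x (i : ℤ) v)) + h * (k : ℝ) ^ d) =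
          (k : ℝ) ^ d * Real.log w + n * h * (k : ℝ) ^ d := by
        rw [Finset.sum_add_distrib, Finset.sum_comm, Finset.sum_const, Finset.card_range,
          nsmul_eq_mul]
        congr 1
        · have h2 : ∀ v ∈ cubeF d k, ∑ i ∈ Finset.range n,
              Real.log (p (fun f : F => x (i : ℤ) (v - f)) (x (i : ℤ) v)) = Real.log w := by
            intro v _
            rw [← hG (ell v)]
            exact Finset.sum_congr rfl (fun i _ => by rw [hx])
          rw [Finset.sum_congr rfl h2, Finset.sum_const, card_cubeF, nsmul_eq_mul]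
          push_cast
          ring
        · ring
      rw [← h1]
      refine (Finset.abs_sum_le_sum_abs _ _).trans ?_
      calc ∑ i ∈ Finset.range n, |∑ v ∈ cubeF d k,
          Real.log (p (fun f : F => x (i : ℤ) (v - f)) (x (i : ℤ) v)) + h * (k : ℝ) ^ d|
          ≤ ∑ i ∈ Finset.range n, C * (k : ℝ) ^ (d - 1) :=
            Finset.sum_le_sum (fun i _ => hC _ (hxmem i) k)
        _ = n * (C * (k : ℝ) ^ (d - 1)) := by
            rw [Finset.sum_const, Finset.card_range, nsmul_eq_mul]
    have hfin : Real.log w + n * h = 0 := by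
      by_contra hcon
      have hδ : 0 < |Real.log w + n * h| := abs_pos.2 hcon
      obtain ⟨k, hk⟩ := exists_nat_gt (n * C / |Real.log w + n * h|)
      have hk2 : n * C < k * |Real.log w + n * h| := by rwa [div_lt_iff₀ hδ] at hk
      set K : ℕ := max k 1 with hK
      have hK1 : (1 : ℝ) ≤ K := by exact_mod_cast le_max_right k 1
      have hKk : (k : ℝ) ≤ K := by exact_mod_cast le_max_left k 1
      have h1 := hcmp K
      obtain ⟨e, rfl⟩ : ∃ e, d = e + 1 := ⟨d - 1, by omega⟩
      have h2 : (K : ℝ) ^ (e + 1) * Real.log w + n * h * (K : ℝ) ^ (e + 1) =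
          (K : ℝ) ^ e * (K * (Real.log w + n * h)) := by ring
      rw [h2, abs_mul, abs_of_nonneg (by positivity : (0 : ℝ) ≤ (K : ℝ) ^ e), abs_mul,
        abs_of_nonneg (by positivity : (0 : ℝ) ≤ (K : ℝ)), Nat.add_sub_cancel] at h1
      have h3 : (0 : ℝ) < (K : ℝ) ^ e := by positivity
      have h4 : (K : ℝ) * |Real.log w + n * h| ≤ n * C := by
        refine le_of_mul_le_mul_left ?_ h3
        refine h1.trans (le_of_eq ?_)
        ring
      have h5 : (k : ℝ) * |Real.log w + n * h| ≤ K * |Real.log w + n * h| :=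
        mul_le_mul_of_nonneg_right hKk hδ.le
      linarith
    have h6 : Real.log w = -(h * n) := by linarith
    rw [← h6, Real.exp_log hwpos]

end Pool.Agent.Helper785.Causal
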