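import Pool.Agent.Helper785_SIEnt.Defs

/-!
# The eigenvalue of a positive integer matrix is a Perron number
-/

set_option autoImplicit false

namespace Pool.Agent.Helper785.Causal

open Pool.Agent.Helper785.SIEnt Finset

variable {C : Type} [Fintype C] [DecidableEq C]

/-- An eigenvector of a positive matrix whose eigenvalue is at least as large in absolute value as
the positive eigenvalue has this positive eigenvalue. -/
theorem eq_of_norm_ge [Nonempty C] (B : C → C → ℝ) (hB : ∀ i j, 0 < B i j) (v : C → ℝ)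
    (hv : ∀ i, 0 < v i) (μ : ℝ) (hμ : 0 < μ) (hBv : ∀ i, ∑ j, B i j * v j = μ * v i)
    (z : ℂ) (y : C → ℂ) (hy : y ≠ 0) (hBy : ∀ i, ∑ j, (B i j : ℂ) * y j = z * y i)
    (hz : μ ≤ ‖z‖) : z = μ := by
  obtain ⟨i₀, -, hmax⟩ := Finset.exists_max_image (Finset.univ : Finset C)
    (fun i => ‖y i‖ / v i) Finset.univ_nonempty
  set r : ℝ := ‖y i₀‖ / v i₀ with hr
  have hle : ∀ j, ‖y j‖ ≤ r * v j := by
    intro j
    have := hmax j (Finset.mem_univ _)
    rwa [div_le_iff₀ (hv j)] at this
  have heq : ‖y i₀‖ = r * v i₀ := by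
    rw [hr, div_mul_cancel₀ _ (hv i₀).ne']
  have hrpos : 0 < r := by
    obtain ⟨j, hj⟩ := Function.ne_iff.1 hy
    have h1 : 0 < ‖y j‖ := norm_pos_iff.2 (by simpa using hj)
    have h2 := hle j
    by_contra hcon
    push Not at hcon
    nlinarith [hv j]
  -- the phase
  have hw0 : z * y i₀ ≠ 0 := by
    have h1 : 0 < ‖z * y i₀‖ := by
      rw [norm_mul, heq]
      have := hv i₀
      have : 0 < ‖z‖ := lt_of_lt_of_le hμ hz
      positivity
    exact norm_pos_iff.1 h1
  set w : ℂ := z * y i₀ with hw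
  set ω : ℂ := (starRingEnd ℂ) w / ‖w‖ with hω
  have hwn : (0 : ℝ) < ‖w‖ := norm_pos_iff.2 hw0
  have hωn : ‖ω‖ = 1 := by
    rw [hω, norm_div, RCLike.norm_conj, Complex.norm_real, norm_norm, div_self hwn.ne']
  have hωw : ω * w = ‖w‖ := by
    rw [hω, div_mul_eq_mul_div, mul_comm, Complex.mul_conj, Complex.normSq_eq_norm_sq]
    have : ((‖w‖ : ℝ) : ℂ) ≠ 0 := by exact_mod_cast hwn.ne'
    field_simp
    push_cast
    ring
  have hsum : ∑ j, B i₀ j * (ω * y j).re = ‖w‖ := by
    have h1 : ∑ j, (B i₀ j : ℂ) * (ω * y j) = ‖w‖ := by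
      rw [← hωw, hw, ← hBy i₀, Finset.mul_sum]
      exact Finset.sum_congr rfl (fun j _ => by ring)
    have h2 := congrArg Complex.re h1
    rw [Complex.re_sum] at h2
    rw [Complex.ofReal_re] at h2
    rw [← h2]
    refine Finset.sum_congr rfl (fun j _ => ?_)
    rw [Complex.re_ofReal_mul]
  have hre : ∀ j, (ω * y j).re ≤ r * v j := by
    intro j
    refine (Complex.re_le_norm _).trans ?_
    rw [norm_mul, hωn, one_mul]
    exact hle j
  have htot : ∑ j, B i₀ j * (r * v j) ≤ ∑ j, B i₀ j * (ω * y j).re := by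
    rw [hsum, hw, norm_mul, heq]
    have h1 : ∑ j, B i₀ j * (r * v j) = μ * (r * v i₀) := by
      have : ∑ j, B i₀ j * (r * v j) = r * ∑ j, B i₀ j * v j := by
        rw [Finset.mul_sum]
        exact Finset.sum_congr rfl (fun j _ => by ring)
      rw [this, hBv]
      ring
    rw [h1]
    exact mul_le_mul_of_nonneg_right hz (mul_pos hrpos (hv i₀)).le
  have hall : ∀ j, (ω * y j).re = r * v j := by
    have h1 : ∑ j, B i₀ j * (ω * y j).re = ∑ j, B i₀ j * (r * v j) :=
      le_antisymm (Finset.sum_le_sum (fun j _ => mul_le_mul_of_nonneg_left (hre j) (hB i₀ j).le))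
        htot
    have h2 := (Finset.sum_eq_sum_iff_of_le
      (fun j _ => mul_le_mul_of_nonneg_left (hre j) (hB i₀ j).le)).1 h1
    intro j
    exact mul_left_cancel₀ (hB i₀ j).ne' (h2 j (Finset.mem_univ _))
  have hval : ∀ j, ω * y j = ((r * v j : ℝ) : ℂ) := by
    intro j
    have h1 : ‖ω * y j‖ ≤ (ω * y j).re := by
      rw [norm_mul, hωn, one_mul, hall j]
      exact hle j
    apply Complex.ext
    · rw [Complex.ofReal_re]; exact hall j
    · rw [Complex.ofReal_im]
      have h2 := Complex.sq_norm (ω * y j)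
      rw [Complex.normSq_apply] at h2
      have h3 : ‖ω * y j‖ = (ω * y j).re := le_antisymm h1 (Complex.re_le_norm _)
      rw [h3] at h2
      nlinarith
  have hω0 : ω ≠ 0 := by
    intro h
    rw [h, norm_zero] at hωn
    exact zero_ne_one hωn
  have hz1 : z * ((r * v i₀ : ℝ) : ℂ) = μ * ((r * v i₀ : ℝ) : ℂ) := by
    calc z * ((r * v i₀ : ℝ) : ℂ) = ω * (z * y i₀) := by rw [← hval i₀]; ring
      _ = ω * ∑ j, (B i₀ j : ℂ) * y j := by rw [hBy]
      _ = ∑ j, (B i₀ j : ℂ) * (ω * y j) := by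
        rw [Finset.mul_sum]
        exact Finset.sum_congr rfl (fun j _ => by ring)
      _ = ∑ j, (B i₀ j : ℂ) * ((r * v j : ℝ) : ℂ) := by
        exact Finset.sum_congr rfl (fun j _ => by rw [hval j])
      _ = ((∑ j, B i₀ j * (r * v j) : ℝ) : ℂ) := by push_cast; rfl
      _ = ((μ * (r * v i₀) : ℝ) : ℂ) := by
        congr 1
        have : ∑ j, B i₀ j * (r * v j) = r * ∑ j, B i₀ j * v j := by
          rw [Finset.mul_sum]
          exact Finset.sum_congr rfl (fun j _ => by ring)
        rw [this, hBv]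
        ring
      _ = μ * ((r * v i₀ : ℝ) : ℂ) := by push_cast; ring
  have h0 : ((r * v i₀ : ℝ) : ℂ) ≠ 0 := by
    exact_mod_cast (mul_pos hrpos (hv i₀)).ne'
  exact mul_right_cancel₀ h0 hz1

/-- The eigenvalue of a positive eigenvector of a positive integer matrix is a Perron number. -/
theorem isPerron_of_pos [Nonempty C] (B : Matrix C C ℕ) (hB : ∀ i j, 0 < B i j) (v : C → ℝ)
    (hv : ∀ i, 0 < v i) (μ : ℝ) (hBv : ∀ i, ∑ j, (B i j : ℝ) * v j = μ * v i) : IsPerron μ := by
  -- `μ ≥ 1`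
  have hμ1 : 1 ≤ μ := by
    obtain ⟨i₀⟩ := (inferInstance : Nonempty C)
    have h1 : v i₀ ≤ ∑ j, (B i₀ j : ℝ) * v j := by
      calc v i₀ ≤ (B i₀ i₀ : ℝ) * v i₀ := by
            have : (1 : ℝ) ≤ B i₀ i₀ := by exact_mod_cast hB i₀ i₀
            nlinarith [hv i₀]
        _ ≤ _ := Finset.single_le_sum (f := fun j => (B i₀ j : ℝ) * v j)
            (fun j _ => mul_nonneg (Nat.cast_nonneg _) (hv j).le) (Finset.mem_univ i₀)
    rw [hBv i₀] at h1
    by_contra hcon
    push Not at hcon
    nlinarith [hv i₀]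
  set Bz : Matrix C C ℤ := B.map (fun n => (n : ℤ)) with hBz
  -- roots of the characteristic polynomial
  have hroot : ∀ (K : Type) [Field K] (z : K), Polynomial.aeval z Bz.charpoly = 0 →
      ∃ y : C → K, y ≠ 0 ∧ ∀ i, ∑ j, (B i j : K) * y j = z * y i := by
    intro K _ z hz
    have h1 : (Matrix.scalar C z - B.map (fun n => (n : K))).det = 0 := by
      have h2 : Polynomial.aeval z Bz.charpoly = (B.map (fun n => (n : K))).charpoly.eval z := by
        have h3 : (B.map (fun n => (n : K))) = Bz.map (algebraMap ℤ K) := by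
          ext i j
          simp [hBz]
        rw [h3, Matrix.charpoly_map, Polynomial.eval_map, Polynomial.aeval_def]
      rw [h2, Matrix.eval_charpoly] at hz
      exact hz
    obtain ⟨y, hy, hMy⟩ := Matrix.exists_mulVec_eq_zero_iff.2 h1
    refine ⟨y, hy, fun i => ?_⟩
    have h2 := congrFun hMy i
    rw [Matrix.sub_mulVec, Pi.sub_apply, Pi.zero_apply, sub_eq_zero] at h2
    have h3 : (Matrix.scalar C z).mulVec y i = z * y i := by
      rw [Matrix.scalar_apply, Matrix.mulVec_diagonal]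
    rw [h3] at h2
    rw [h2]
    simp [Matrix.mulVec, dotProduct]
  have hdet : ∀ (K : Type) [Field K] (z : K) (y : C → K), y ≠ 0 →
      (∀ i, ∑ j, (B i j : K) * y j = z * y i) → Polynomial.aeval z Bz.charpoly = 0 := by
    intro K _ z y hy hBy
    have h2 : Polynomial.aeval z Bz.charpoly = (B.map (fun n => (n : K))).charpoly.eval z := by
      have h3 : (B.map (fun n => (n : K))) = Bz.map (algebraMap ℤ K) := by
        ext i j
        simp [hBz]
      rw [h3, Matrix.charpoly_map, Polynomial.eval_map, Polynomial.aeval_def]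
    rw [h2, Matrix.eval_charpoly]
    refine Matrix.exists_mulVec_eq_zero_iff.1 ⟨y, hy, ?_⟩
    funext i
    rw [Matrix.sub_mulVec, Pi.sub_apply, Pi.zero_apply, sub_eq_zero]
    have h3 : (Matrix.scalar C z).mulVec y i = z * y i := by
      rw [Matrix.scalar_apply, Matrix.mulVec_diagonal]
    rw [h3, ← hBy i]
    simp [Matrix.mulVec, dotProduct]
  have hμroot : Polynomial.aeval μ Bz.charpoly = 0 := by
    refine hdet ℝ μ v ?_ hBv
    obtain ⟨i₀⟩ := (inferInstance : Nonempty C)
    intro h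
    have := hv i₀
    rw [h] at this
    simp at this
  have hint : IsIntegral ℤ μ := ⟨Bz.charpoly, Bz.charpoly_monic, hμroot⟩
  refine ⟨hμ1, hint, fun z hz hne => ?_⟩
  by_contra hcon
  push Not at hcon
  apply hne
  obtain ⟨q, hq⟩ := minpoly.isIntegrallyClosed_dvd hint hμroot
  have hzroot : Polynomial.aeval z Bz.charpoly = 0 := by
    rw [hq, map_mul, hz, zero_mul]
  obtain ⟨y, hy, hBy⟩ := hroot ℂ z hzroot
  exact eq_of_norm_ge (fun i j => (B i j : ℝ)) (fun i j => by exact_mod_cast hB i j) v hv μ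
    (by linarith) hBv z y hy (by simpa using hBy) hcon

end Pool.Agent.Helper785.Causal
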