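import Pool.Agent.Helper785_Causal.Kernel

/-!
# Realization by shifts with a uniform causal kernel
-/

set_option autoImplicit false

namespace Pool.Agent.Helper785.Causal

open Pool.Agent.Helper785.SIEnt Finset

/-- The entropies of the nonempty strongly irreducible `ℤ^d`-shifts of finite type which are
given by a uniform causal kernel of finite memory. -/
def causalEntropySet (d : ℕ) : Set ℝ :=
  {h | ∃ (A : Type) (_ : Fintype A) (L : List (Pattern d A)) (F : Finset (Fin d → ℤ))
      (p : (F → A) → A → ℝ), (sft L).Nonempty ∧ StronglyIrreducible (sft L) ∧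
      HasEntropy (sft L) h ∧ sft L = kernelShift F p ∧ IsCausal F p ∧ UniformGibbs F p h}

theorem sum_cube_succ {d : ℕ} (k : ℕ) (f : (Fin (d + 1) → ℤ) → ℝ) :
    ∑ v ∈ cubeF (d + 1) k, f v =
      ∑ t ∈ Finset.range k, ∑ v ∈ cubeF d k, f (Fin.cons (t : ℤ) v) := by
  rw [← Finset.sum_product']
  refine Finset.sum_nbij' (fun v => ((v 0).toNat, Fin.tail v)) (fun x => Fin.cons (x.1 : ℤ) x.2)
    ?_ ?_ ?_ ?_ ?_
  · intro v hv
    rw [mem_cubeF] at hv
    rw [Finset.mem_product, Finset.mem_range, mem_cubeF]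
    have h0 := hv 0
    exact ⟨by simp only; omega, fun i => hv i.succ⟩
  · rintro ⟨t, v⟩ hx
    rw [Finset.mem_product, Finset.mem_range, mem_cubeF] at hx
    rw [mem_cubeF]
    intro i
    refine Fin.cases ?_ (fun i => ?_) i
    · simp only [Fin.cons_zero]
      have := hx.1
      simp only at this
      omega
    · simp only [Fin.cons_succ]
      exact hx.2 i
  · intro v hv
    rw [mem_cubeF] at hv
    have h0 := hv 0
    simp only
    rw [Int.toNat_of_nonneg h0.1]
    exact Fin.cons_self_tail v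
  · rintro ⟨t, v⟩ _
    simp
  · intro v hv
    rw [mem_cubeF] at hv
    have h0 := hv 0
    simp only
    rw [Int.toNat_of_nonneg h0.1, Fin.cons_self_tail]

theorem telescope {d : ℕ} (k : ℕ) (a : (Fin (d + 1) → ℤ) → ℝ) (B : ℝ) (ha : ∀ v, |a v| ≤ B) :
    |∑ v ∈ cubeF (d + 1) k, (a v - a (v - Fin.cons 1 0))| ≤ 2 * B * (k : ℝ) ^ d := by
  rw [sum_cube_succ, Finset.sum_comm]
  have h1 : ∀ v ∈ cubeF d k, |∑ t ∈ Finset.range k, (a (Fin.cons (t : ℤ) v) -
      a (Fin.cons (t : ℤ) v - Fin.cons 1 0))| ≤ 2 * B := by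
    intro v _
    have h2 : ∀ t : ℕ, a (Fin.cons (t : ℤ) v) - a (Fin.cons (t : ℤ) v - Fin.cons 1 0) =
        (fun n : ℕ => a (Fin.cons ((n : ℤ) - 1) v)) (t + 1) -
        (fun n : ℕ => a (Fin.cons ((n : ℤ) - 1) v)) t := by
      intro t
      have h3 : (Fin.cons (t : ℤ) v - Fin.cons 1 0 : Fin (d + 1) → ℤ) =
          Fin.cons ((t : ℤ) - 1) v := by
        funext i
        refine Fin.cases ?_ (fun i => ?_) i <;> simp
      rw [h3]
      simp
    rw [Finset.sum_congr rfl (fun t _ => h2 t),
      Finset.sum_range_sub (fun n : ℕ => a (Fin.cons ((n : ℤ) - 1) v))]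
    refine (abs_sub _ _).trans ?_
    have h4 := ha (Fin.cons (((k : ℕ) : ℤ) - 1) v)
    have h5 := ha (Fin.cons (((0 : ℕ) : ℤ) - 1) v)
    linarith
  refine (Finset.abs_sum_le_sum_abs _ _).trans ?_
  refine (Finset.sum_le_sum h1).trans (le_of_eq ?_)
  rw [Finset.sum_const, card_cubeF, nsmul_eq_mul]
  push_cast
  ring

/-- The memory of a corner rule. -/
def cornerF : Finset (Fin 2 → ℤ) := {![1, 0], ![0, 1]}

theorem e1_mem : (![1, 0] : Fin 2 → ℤ) ∈ cornerF := by simp [cornerF]
theorem e2_mem : (![0, 1] : Fin 2 → ℤ) ∈ cornerF := by simp [cornerF]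

open Classical in
/-- The kernel of a balanced corner rule. -/
noncomputable def cornerP {A : Type} (R : A → A → A → Prop) (α β : A → ℝ) (κ : ℝ)
    (u : cornerF → A) (c : A) : ℝ :=
  if R (u ⟨_, e1_mem⟩) (u ⟨_, e2_mem⟩) c then
    α c * β c / (κ * α (u ⟨_, e1_mem⟩) * β (u ⟨_, e2_mem⟩)) else 0

theorem corner_kernel {A : Type} [Fintype A] {R : A → A → A → Prop} {α β : A → ℝ} {κ : ℝ}
    (hb : Balanced R α β κ) (hκ : 0 < κ) (hα : ∀ a, 0 < α a) (hβ : ∀ a, 0 < β a) :
    cornerSet R = kernelShift cornerF (cornerP R α β κ) ∧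
      IsCausal cornerF (cornerP R α β κ) ∧
      UniformGibbs cornerF (cornerP R α β κ) (Real.log κ) := by
  classical
  have hpos : ∀ a b c : A, 0 < α c * β c / (κ * α a * β b) := by
    intro a b c
    have := hα a; have := hβ b; have := hα c; have := hβ c
    positivity
  have hv1 : ∀ v : Fin 2 → ℤ, v - ![1, 0] = ![v 0 - 1, v 1] := by
    intro v; funext i; fin_cases i <;> simp
  have hv2 : ∀ v : Fin 2 → ℤ, v - ![0, 1] = ![v 0, v 1 - 1] := by
    intro v; funext i; fin_cases i <;> simp
  have hmem : ∀ x : (Fin 2 → ℤ) → A, x ∈ kernelShift cornerF (cornerP R α β κ) ↔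
      ∀ v : Fin 2 → ℤ, R (x (v - ![1, 0])) (x (v - ![0, 1])) (x v) := by
    intro x
    refine forall_congr' (fun v => ?_)
    unfold cornerP
    constructor
    · intro h
      by_contra hcon
      rw [if_neg hcon] at h
      exact lt_irrefl _ h
    · intro h
      rw [if_pos h]
      exact hpos _ _ _
  refine ⟨?_, ⟨?_, ?_, ?_⟩, ?_⟩
  · ext x
    rw [hmem]
    constructor
    · intro h v
      have := h (v 0) (v 1)
      rw [← hv1, ← hv2] at this
      rwa [vec2_eta] at this
    · intro h i j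
      have := h ![i, j]
      rw [hv1, hv2] at this
      simpa using this
  · let ell : (Fin 2 → ℤ) →+ ℤ :=
      { toFun := fun v => v 0 + v 1
        map_zero' := by simp
        map_add' := fun x y => by
          simp only [Pi.add_apply]
          ring }
    refine ⟨ell, ?_⟩
    intro f hf
    simp only [cornerF, Finset.mem_insert, Finset.mem_singleton] at hf
    rcases hf with rfl | rfl
    · show (0 : ℤ) < 1 + 0
      norm_num
    · show (0 : ℤ) < 0 + 1
      norm_num
  · intro u c
    unfold cornerP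
    split_ifs
    · exact (hpos _ _ _).le
    · exact le_rfl
  · intro u
    have h1 := hb (u ⟨_, e1_mem⟩) (u ⟨_, e2_mem⟩)
    have h2 : κ * α (u ⟨_, e1_mem⟩) * β (u ⟨_, e2_mem⟩) ≠ 0 := by
      have := hα (u ⟨_, e1_mem⟩); have := hβ (u ⟨_, e2_mem⟩); positivity
    have h3 : ∑ c, cornerP R α β κ u c = (∑ c, if R (u ⟨_, e1_mem⟩) (u ⟨_, e2_mem⟩) c then
        α c * β c else 0) / (κ * α (u ⟨_, e1_mem⟩) * β (u ⟨_, e2_mem⟩)) := by
      rw [Finset.sum_div]
      refine Finset.sum_congr rfl (fun c _ => ?_)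
      unfold cornerP
      split_ifs
      · rfl
      · rw [zero_div]
    rw [h3, ← div_self h2]
    congr 1
  · -- uniformity
    obtain ⟨B, hB⟩ : ∃ B : ℝ, ∀ a, |Real.log (α a)| ≤ B ∧ |Real.log (β a)| ≤ B := by
      refine ⟨∑ a, (|Real.log (α a)| + |Real.log (β a)|), fun a => ?_⟩
      have h1 : |Real.log (α a)| + |Real.log (β a)| ≤
          ∑ a, (|Real.log (α a)| + |Real.log (β a)|) :=
        Finset.single_le_sum (f := fun a => |Real.log (α a)| + |Real.log (β a)|)
          (fun _ _ => by positivity) (Finset.mem_univ a)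
      have h2 := abs_nonneg (Real.log (α a))
      have h3 := abs_nonneg (Real.log (β a))
      constructor <;> linarith
    refine ⟨4 * B, fun x hx k => ?_⟩
    rw [hmem] at hx
    have hlog : ∀ v : Fin 2 → ℤ, Real.log (cornerP R α β κ (fun f => x (v - f)) (x v)) =
        (Real.log (α (x v)) - Real.log (α (x (v - ![1, 0])))) +
        (Real.log (β (x v)) - Real.log (β (x (v - ![0, 1])))) - Real.log κ := by
      intro v
      unfold cornerP
      rw [if_pos (hx v)]
      have a1 := hα (x v)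
      have a2 := hβ (x v)
      have a3 := hα (x (v - ![1, 0]))
      have a4 := hβ (x (v - ![0, 1]))
      rw [Real.log_div (by positivity) (by positivity), Real.log_mul a1.ne' a2.ne',
        Real.log_mul (by positivity) a4.ne', Real.log_mul hκ.ne' a3.ne']
      ring
    rw [Finset.sum_congr rfl (fun v _ => hlog v), Finset.sum_sub_distrib, Finset.sum_add_distrib,
      Finset.sum_const, card_cubeF, nsmul_eq_mul]
    have t1 := telescope (d := 1) k (fun v => Real.log (α (x v))) B (fun v => (hB _).1)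
    have t2 : |∑ v ∈ cubeF 2 k, (Real.log (β (x v)) - Real.log (β (x (v - ![0, 1]))))| ≤
        2 * B * (k : ℝ) ^ 1 := by
      have e1 := sum_cube_succ (d := 1) k
        (fun v => Real.log (β (x v)) - Real.log (β (x (v - ![0, 1]))))
      rw [e1]
      refine (Finset.abs_sum_le_sum_abs _ _).trans ?_
      have e2 : ∀ t ∈ Finset.range k, |∑ v ∈ cubeF 1 k,
          (Real.log (β (x (Fin.cons (t : ℤ) v))) -
            Real.log (β (x (Fin.cons (t : ℤ) v - ![0, 1]))))| ≤ 2 * B := by
        intro t _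
        have e3 := telescope (d := 0) k (fun v => Real.log (β (x (Fin.cons (t : ℤ) v)))) B
          (fun v => (hB _).2)
        rw [pow_zero, mul_one] at e3
        refine le_trans (le_of_eq ?_) e3
        congr 1
        refine Finset.sum_congr rfl (fun v _ => ?_)
        have e4 : (Fin.cons (t : ℤ) v - ![0, 1] : Fin 2 → ℤ) =
            Fin.cons (t : ℤ) (v - Fin.cons 1 0) := by
          funext i
          fin_cases i
          · simp
          · rfl
        rw [e4]
      refine (Finset.sum_le_sum e2).trans (le_of_eq ?_)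
      rw [Finset.sum_const, Finset.card_range, nsmul_eq_mul]
      ring
    have t3 : (Fin.cons 1 0 : Fin 2 → ℤ) = ![1, 0] := by
      funext i; fin_cases i <;> rfl
    rw [t3] at t1
    have e5 : (((k ^ 2 : ℕ) : ℝ)) * Real.log κ = Real.log κ * (k : ℝ) ^ 2 := by
      push_cast; ring
    rw [e5, sub_add_cancel]
    refine (abs_add_le _ _).trans ?_
    show _ ≤ 4 * B * (k : ℝ) ^ 1
    linarith

theorem causalEntropySet_succ {d : ℕ} (hd : 0 < d) :
    causalEntropySet d ⊆ causalEntropySet (d + 1) := by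
  classical
  rintro h ⟨A, hA, L, F, p, hne, hsi, hent, hL, hp, hG⟩
  let ι : (Fin d → ℤ) ↪ (Fin (d + 1) → ℤ) :=
    ⟨fun v => Fin.cons 0 v, fun _ _ h => (Fin.cons_inj.1 h).2⟩
  let F' : Finset (Fin (d + 1) → ℤ) := F.map ι
  have hm : ∀ f : F, ι f.1 ∈ F' := fun f => Finset.mem_map_of_mem ι f.2
  let p' : (F' → A) → A → ℝ := fun u c => p (fun f => u ⟨ι f.1, hm f⟩) c
  have hsub : ∀ (t : ℤ) (v f : Fin d → ℤ),
      (Fin.cons t v : Fin (d + 1) → ℤ) - ι f = Fin.cons t (v - f) := by
    intro t v f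
    funext i
    refine Fin.cases ?_ (fun i => ?_) i
    · simp [ι]
    · simp [ι]
  have hval : ∀ (x : (Fin (d + 1) → ℤ) → A) (t : ℤ) (v : Fin d → ℤ),
      p' (fun f => x ((Fin.cons t v : Fin (d + 1) → ℤ) - f)) (x (Fin.cons t v)) =
      p (fun f => slice x t (v - f)) (slice x t v) := by
    intro x t v
    show p (fun f => x ((Fin.cons t v : Fin (d + 1) → ℤ) - ι f.1)) (x (Fin.cons t v)) = _
    congr 1
    funext f
    rw [hsub]
    rfl
  have hmem : ∀ x, x ∈ kernelShift F' p' ↔ x ∈ stack (kernelShift F p) := by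
    intro x
    constructor
    · intro hx t v
      have := hx (Fin.cons t v)
      rwa [hval] at this
    · intro hx v
      have := hx (v 0) (Fin.tail v)
      rw [← hval, Fin.cons_self_tail] at this
      exact this
  refine ⟨A, hA, L.map Pattern.raise, F', p', ?_, ?_, ?_, ?_, ⟨?_, ?_, ?_⟩, ?_⟩
  · rw [sft_raise]; exact stack_nonempty hne
  · rw [sft_raise]; exact stack_si hsi
  · rw [sft_raise]; exact hasEntropy_stack hne hent
  · rw [sft_raise, hL]
    ext x
    exact (hmem x).symm
  · obtain ⟨ell, hell⟩ := hp.halfspace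
    refine ⟨{ toFun := fun v => ell (Fin.tail v), map_zero' := ?_, map_add' := ?_ }, ?_⟩
    · have : Fin.tail (0 : Fin (d + 1) → ℤ) = 0 := rfl
      rw [this, map_zero]
    · intro v w
      have : Fin.tail (v + w) = Fin.tail v + Fin.tail w := rfl
      rw [this, map_add]
    · intro f hf
      obtain ⟨g, hg, rfl⟩ := Finset.mem_map.1 hf
      show 0 < ell (Fin.tail (Fin.cons 0 g : Fin (d + 1) → ℤ))
      rw [Fin.tail_cons]
      exact hell g hg
  · intro u c
    exact hp.nonneg _ _
  · intro u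
    exact hp.sum_one _
  · obtain ⟨C, hC⟩ := hG
    refine ⟨C, fun x hx k => ?_⟩
    rw [hmem] at hx
    rw [sum_cube_succ]
    have h1 : ∀ t : ℕ, ∑ v ∈ cubeF d k, Real.log (p' (fun f => x ((Fin.cons (t : ℤ) v :
        Fin (d + 1) → ℤ) - f)) (x (Fin.cons (t : ℤ) v))) =
        ∑ v ∈ cubeF d k, Real.log (p (fun f => slice x t (v - f)) (slice x t v)) := by
      intro t
      exact Finset.sum_congr rfl (fun v _ => by rw [hval])
    have h2 : ∑ t ∈ Finset.range k, ∑ v ∈ cubeF d k, Real.log (p' (fun f => x ((Fin.cons (t : ℤ) v :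
        Fin (d + 1) → ℤ) - f)) (x (Fin.cons (t : ℤ) v))) + h * (k : ℝ) ^ (d + 1) =
        ∑ t ∈ Finset.range k, (∑ v ∈ cubeF d k,
          Real.log (p (fun f => slice x t (v - f)) (slice x t v)) + h * (k : ℝ) ^ d) := by
      rw [Finset.sum_congr rfl (fun t _ => h1 t), Finset.sum_add_distrib, Finset.sum_const,
        Finset.card_range, nsmul_eq_mul]
      ring
    rw [h2]
    refine (Finset.abs_sum_le_sum_abs _ _).trans ?_
    refine (Finset.sum_le_sum (fun (t : ℕ) _ => hC _ (hx (t : ℤ)) k)).trans (le_of_eq ?_)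
    rw [Finset.sum_const, Finset.card_range, nsmul_eq_mul]
    obtain ⟨e, rfl⟩ : ∃ e, d = e + 1 := ⟨d - 1, by omega⟩
    simp only [Nat.add_sub_cancel]
    ring

theorem causalEntropySet_mono {d e : ℕ} (hd : 0 < d) (h : d ≤ e) :
    causalEntropySet d ⊆ causalEntropySet e := by
  induction h with
  | refl => exact subset_rfl
  | step h ih => exact ih.trans (causalEntropySet_succ (hd.trans_le h))

theorem causalEntropySet_subset (d : ℕ) : causalEntropySet d ⊆ entropySet d := by
  rintro h ⟨A, hA, L, _, _, hne, hsi, hent, _⟩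
  exact ⟨A, inferInstance, L, hne, hsi, hent⟩

end Pool.Agent.Helper785.Causal
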